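import Mathlib

set_option autoImplicit false

namespace Pool.Agent.Helper17.PC

open Finset

/-- The potential profile: exponential up to `1`, then linear. -/
noncomputable def h (s : ℝ) : ℝ := if s ≤ 1 then Real.exp (s - 1) else s

theorem h_le {s : ℝ} (hs : s ≤ 1) : h s = Real.exp (s - 1) := by simp [h, hs]

theorem h_ge {s : ℝ} (hs : 1 ≤ s) : h s = s := by
  unfold h
  split_ifs with h1
  · have : s = 1 := le_antisymm h1 hs
    simp [this]
  · rfl

theorem h_pos (s : ℝ) : 0 < h s := by
  unfold h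
  split_ifs with h1
  · positivity
  · linarith

theorem h_le_exp (s : ℝ) : h s ≤ Real.exp (s - 1) := by
  unfold h
  split_ifs with h1
  · exact le_refl _
  · have := Real.add_one_le_exp (s - 1)
    linarith

theorem le_h (s : ℝ) : s ≤ h s := by
  unfold h
  split_ifs with h1
  · have := Real.add_one_le_exp (s - 1)
    linarith
  · exact le_refl _

/-- `h` is increasing and 1-Lipschitz. -/
theorem h_add_le (s a : ℝ) (ha : 0 ≤ a) : h (s + a) ≤ h s + a := by
  rcases le_total (s + a) 1 with h1 | h1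
  · have hs : s ≤ 1 := by linarith
    rw [h_le h1, h_le hs]
    have h2 : Real.exp (s + a - 1) * (1 - a) ≤ Real.exp (s - 1) := by
      have e1 : Real.exp (s - 1) = Real.exp (s + a - 1) * Real.exp (-a) := by
        rw [← Real.exp_add]; ring_nf
      rw [e1]
      have := Real.add_one_le_exp (-a)
      exact mul_le_mul_of_nonneg_left (by linarith) (Real.exp_pos _).le
    have h3 : Real.exp (s + a - 1) ≤ 1 := by
      rw [Real.exp_le_one_iff]; linarith
    nlinarith [Real.exp_pos (s + a - 1)]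
  · rw [h_ge h1]
    have := le_h s
    linarith

theorem h_mono {s t : ℝ} (hst : s ≤ t) : h s ≤ h t := by
  rcases le_total t 1 with h1 | h1
  · rw [h_le h1, h_le (hst.trans h1)]
    exact Real.exp_le_exp.mpr (by linarith)
  · rw [h_ge h1]
    rcases le_total s 1 with h2 | h2
    · rw [h_le h2]
      have : Real.exp (s - 1) ≤ 1 := by
        rw [Real.exp_le_one_iff]; linarith
      linarith
    · rw [h_ge h2]; exact hst

theorem exp_neg_le (v : ℝ) (hv : 0 ≤ v) : Real.exp (-v) ≤ 1 - v + v ^ 2 / 2 := by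
  have h1 := Real.quadratic_le_exp_of_nonneg hv
  have h2 : (0 : ℝ) < 1 + v + v ^ 2 / 2 := by positivity
  rw [Real.exp_neg]
  have h3 : (Real.exp v)⁻¹ ≤ (1 + v + v ^ 2 / 2)⁻¹ := inv_anti₀ h2 h1
  refine h3.trans ?_
  rw [inv_le_iff_one_le_mul₀ h2]
  nlinarith [sq_nonneg (v ^ 2)]

theorem h_sub_le (t b : ℝ) (ht : 1 ≤ t) : h (t - b) ≤ t - b + b ^ 2 / 2 := by
  rcases le_total (t - b) 1 with h1 | h1
  · rw [h_le h1]
    have h2 := exp_neg_le (1 - (t - b)) (by linarith)
    have h3 : t - b - 1 = -(1 - (t - b)) := by ring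
    rw [h3]
    refine h2.trans ?_
    have : (1 - (t - b)) ^ 2 ≤ b ^ 2 := by
      apply pow_le_pow_left₀ (by linarith) (by linarith)
    linarith
  · rw [h_ge h1]
    nlinarith [sq_nonneg b]

/-- Two-point inequality in the region below `1`. -/
theorem h_avg (θ s : ℝ) (hs : s ≤ 1) :
    h (s + (θ - θ ^ 2 / 2)) + h (s - (θ + θ ^ 2 / 2)) ≤ 2 * h s := by
  have h1 := h_le_exp (s + (θ - θ ^ 2 / 2))
  have h2 := h_le_exp (s - (θ + θ ^ 2 / 2))
  rw [h_le hs]
  have h3 : Real.exp (s + (θ - θ ^ 2 / 2) - 1) + Real.exp (s - (θ + θ ^ 2 / 2) - 1)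
      = 2 * (Real.exp (s - 1) * (Real.exp (-(θ ^ 2 / 2)) * Real.cosh θ)) := by
    rw [Real.cosh_eq]
    have e1 : Real.exp (s + (θ - θ ^ 2 / 2) - 1)
        = Real.exp (s - 1) * (Real.exp (-(θ ^ 2 / 2)) * Real.exp θ) := by
      rw [← Real.exp_add, ← Real.exp_add]; ring_nf
    have e2 : Real.exp (s - (θ + θ ^ 2 / 2) - 1)
        = Real.exp (s - 1) * (Real.exp (-(θ ^ 2 / 2)) * Real.exp (-θ)) := by
      rw [← Real.exp_add, ← Real.exp_add]; ring_nf
    rw [e1, e2]; ring
  have h4 : Real.exp (-(θ ^ 2 / 2)) * Real.cosh θ ≤ 1 := by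
    have := Real.cosh_le_exp_half_sq θ
    have h5 : Real.exp (-(θ ^ 2 / 2)) * Real.exp (θ ^ 2 / 2) = 1 := by
      rw [← Real.exp_add]; simp
    calc Real.exp (-(θ ^ 2 / 2)) * Real.cosh θ
        ≤ Real.exp (-(θ ^ 2 / 2)) * Real.exp (θ ^ 2 / 2) :=
          mul_le_mul_of_nonneg_left this (Real.exp_pos _).le
      _ = 1 := h5
  have h6 : Real.exp (s - 1) * (Real.exp (-(θ ^ 2 / 2)) * Real.cosh θ) ≤ Real.exp (s - 1) * 1 :=
    mul_le_mul_of_nonneg_left h4 (Real.exp_pos _).le
  linarith

/-- If the token that moves down is in the linear region, the potential does not increase. -/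
theorem h_lin (θ s t : ℝ) (h0 : 0 ≤ θ) (h1 : θ ≤ 1 / 2) (ht : 1 ≤ t) :
    h (s + (θ - θ ^ 2 / 2)) + h (t - (θ + θ ^ 2 / 2)) ≤ h s + h t := by
  have ha : 0 ≤ θ - θ ^ 2 / 2 := by nlinarith
  have hb : 0 ≤ θ + θ ^ 2 / 2 := by positivity
  have h2 := h_add_le s _ ha
  have h3 := h_sub_le t (θ + θ ^ 2 / 2) ht
  rw [h_ge ht]
  have : (θ + θ ^ 2 / 2) ^ 2 / 2 ≤ θ ^ 2 := by
    have : (θ + θ ^ 2 / 2) ^ 2 = θ ^ 2 * (1 + θ / 2) ^ 2 := by ring
    rw [this]
    have h4 : (1 + θ / 2) ^ 2 ≤ 2 := by nlinarith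
    nlinarith [sq_nonneg θ]
  linarith

/-! ### One turn, abstractly -/

section Step

variable {ι : Type*} [Fintype ι] [DecidableEq ι]

/-- leads after `i` goes up and `j` goes down -/
def updX (x : ι → ℤ) (i j : ι) : ι → ℤ := fun l => x l + (if l = i then 1 else 0)
  - (if l = j then 1 else 0)

/-- scores after `i` goes up and `j` goes down -/
noncomputable def updS (θ : ℝ) (s : ι → ℝ) (i j : ι) : ι → ℝ := fun l =>
  s l + (if l = i then (θ - θ ^ 2 / 2) else 0) - (if l = j then (θ + θ ^ 2 / 2) else 0)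

/-- The majorization invariant. -/
def Maj (y : ℤ) (K : ℕ) (x : ι → ℤ) : Prop :=
  ∀ M : Finset ι, M.card ≤ K → ∑ l ∈ M, (x l - y) ≤ 2 * K * M.card - (M.card : ℤ) ^ 2

omit [Fintype ι] in
theorem sum_updX (y : ℤ) (x : ι → ℤ) (i j : ι) (M : Finset ι) :
    ∑ l ∈ M, (updX x i j l - y) = ∑ l ∈ M, (x l - y) + (if i ∈ M then 1 else 0)
      - (if j ∈ M then 1 else 0) := by
  have : ∀ l ∈ M, updX x i j l - y = (x l - y) + (if l = i then 1 else 0)
      - (if l = j then 1 else 0) := by
    intro l _; unfold updX; ring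
  rw [Finset.sum_congr rfl this, Finset.sum_sub_distrib, Finset.sum_add_distrib]
  simp [Finset.sum_ite_eq']

theorem maj_step {y : ℤ} {K : ℕ} {x : ι → ℤ} (hM : Maj y K x)
    (hK : (univ.filter (fun l => y ≤ x l)).card ≤ K) (i j : ι)
    (hij : i = j ∨ x i ≤ x j ∨ x i < y) : Maj y K (updX x i j) := by
  intro M hMK
  rw [sum_updX]
  have hMM := hM M hMK
  by_cases hi : i ∈ M
  · by_cases hj : j ∈ M
    · simp only [hi, hj, if_true]; linarith
    · have hne : i ≠ j := fun h => hj (h ▸ hi)
      have hx : x i ≤ x j ∨ x i < y := by tauto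
      have hcard : 0 < M.card := Finset.card_pos.mpr ⟨i, hi⟩
      simp only [hi, hj, if_true, if_false]
      -- sums after removing an element
      have hrem : ∀ l ∈ M, ∑ a ∈ M, (x a - y)
          ≤ (2 * K * ((M.card : ℤ) - 1) - ((M.card : ℤ) - 1) ^ 2) + (x l - y) := by
        intro l hl
        have h1 := hM (M.erase l) ((Finset.card_erase_le).trans hMK)
        rw [Finset.card_erase_of_mem hl] at h1
        have h2 := Finset.sum_erase_add M (fun a => x a - y) hl
        rw [Nat.cast_sub hcard] at h1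
        push_cast at h1
        linarith
      have hMKz : (M.card : ℤ) ≤ K := by exact_mod_cast hMK
      by_cases hlow : ∃ l ∈ M, x l < y
      · obtain ⟨l, hl, hly⟩ := hlow
        have := hrem l hl
        nlinarith
      · push Not at hlow
        have hxi := hlow i hi
        have hxij : x i ≤ x j := by
          rcases hx with h | h
          · exact h
          · omega
        have hcI : (insert j M).card = M.card + 1 := Finset.card_insert_of_notMem hj
        -- insert j M is contained in the high set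
        have hsub : insert j M ⊆ univ.filter (fun l => y ≤ x l) := by
          intro l hl
          rw [Finset.mem_filter]
          refine ⟨Finset.mem_univ _, ?_⟩
          rcases Finset.mem_insert.mp hl with rfl | hl
          · omega
          · exact hlow l hl
        have hle := (Finset.card_le_card hsub).trans hK
        have h1 := hM (insert j M) hle
        rw [Finset.sum_insert hj, hcI] at h1
        push_cast at h1
        have h2 := hrem i hi
        nlinarith
  · by_cases hj : j ∈ M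
    · simp only [hi, hj, if_true, if_false]; linarith
    · simp only [hi, hj, if_false]; linarith

theorem sum_updS (θ : ℝ) (s : ι → ℝ) (i j : ι) (hij : i ≠ j) :
    ∑ l, h (updS θ s i j l) = ∑ l, h (s l) + (h (s i + (θ - θ ^ 2 / 2)) - h (s i))
      + (h (s j - (θ + θ ^ 2 / 2)) - h (s j)) := by
  have key : ∀ l ∈ (univ : Finset ι), h (updS θ s i j l) = h (s l)
      + (if l = i then (h (s i + (θ - θ ^ 2 / 2)) - h (s i)) else 0)
      + (if l = j then (h (s j - (θ + θ ^ 2 / 2)) - h (s j)) else 0) := by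
    intro l _
    unfold updS
    by_cases h1 : l = i
    · subst h1
      have h2 : l ≠ j := hij
      simp [h2]
    · by_cases h2 : l = j
      · subst h2
        simp [h1]
      · simp [h1, h2]
  rw [Finset.sum_congr rfl key, Finset.sum_add_distrib, Finset.sum_add_distrib]
  simp

/-- One turn: whatever two rows Picker chooses, Chooser has a good reply. -/
theorem turn {θ : ℝ} (h0 : 0 ≤ θ) (h1 : θ ≤ 1 / 2) {y : ℤ} {K : ℕ} {x : ι → ℤ} {s : ι → ℝ}
    (hx : ∀ l, y ≤ x l → 1 ≤ s l) (hΦ : ∑ l, h (s l) ≤ K) (hM : Maj y K x) (i j : ι) :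
    (∑ l, h (updS θ s i j l) ≤ K ∧ Maj y K (updX x i j)) ∨
    (∑ l, h (updS θ s j i l) ≤ K ∧ Maj y K (updX x j i)) := by
  have hK : (univ.filter (fun l => y ≤ x l)).card ≤ K := by
    have h2 : ((univ.filter (fun l => y ≤ x l)).card : ℝ) ≤ ∑ l, h (s l) := by
      calc ((univ.filter (fun l => y ≤ x l)).card : ℝ)
          = ∑ l ∈ univ.filter (fun l => y ≤ x l), (1 : ℝ) := by simp
        _ ≤ ∑ l ∈ univ.filter (fun l => y ≤ x l), h (s l) := by
            apply Finset.sum_le_sum
            intro l hl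
            have := hx l (Finset.mem_filter.mp hl).2
            exact this.trans (le_h _)
        _ ≤ ∑ l, h (s l) := by
            apply Finset.sum_le_sum_of_subset_of_nonneg (Finset.filter_subset _ _)
            intro l _ _
            exact (h_pos _).le
    exact_mod_cast h2.trans hΦ
  have hlow : ∀ l, s l < 1 → x l < y := by
    intro l hl
    by_contra hcon
    exact absurd (hx l (not_lt.mp hcon)) (not_le.mpr hl)
  by_cases hij : i = j
  · left
    subst hij
    refine ⟨?_, maj_step hM hK i i (Or.inl rfl)⟩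
    refine (Finset.sum_le_sum ?_).trans hΦ
    intro l _
    apply h_mono
    unfold updS
    by_cases hl : l = i
    · simp only [hl, if_true]; nlinarith [sq_nonneg θ]
    · simp [hl]
  · have hji : j ≠ i := fun h => hij h.symm
    rw [sum_updS θ s i j hij, sum_updS θ s j i hji]
    rcases lt_or_ge (s i) 1 with hsi | hsi
    · rcases lt_or_ge (s j) 1 with hsj | hsj
      · -- both low: take the better one
        have a1 := h_avg θ (s i) hsi.le
        have a2 := h_avg θ (s j) hsj.le
        have m1 := maj_step hM hK i j (Or.inr (Or.inr (hlow i hsi)))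
        have m2 := maj_step hM hK j i (Or.inr (Or.inr (hlow j hsj)))
        by_cases hc : (h (s i + (θ - θ ^ 2 / 2)) - h (s i))
            + (h (s j - (θ + θ ^ 2 / 2)) - h (s j)) ≤ 0
        · left; exact ⟨by linarith, m1⟩
        · right; exact ⟨by linarith, m2⟩
      · -- j high, i low : i up, j down
        left
        have := h_lin θ (s i) (s j) h0 h1 hsj
        exact ⟨by linarith, maj_step hM hK i j (Or.inr (Or.inr (hlow i hsi)))⟩
    · rcases lt_or_ge (s j) 1 with hsj | hsj
      · right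
        have := h_lin θ (s j) (s i) h0 h1 hsi
        exact ⟨by linarith, maj_step hM hK j i (Or.inr (Or.inr (hlow j hsj)))⟩
      · -- both high
        rcases le_total (x i) (x j) with hc | hc
        · left
          have := h_lin θ (s i) (s j) h0 h1 hsj
          exact ⟨by linarith, maj_step hM hK i j (Or.inr (Or.inl hc))⟩
        · right
          have := h_lin θ (s j) (s i) h0 h1 hsi
          exact ⟨by linarith, maj_step hM hK j i (Or.inr (Or.inl hc))⟩

end Step

/-! ### The board -/

section Board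

variable {n : ℕ}

/-- positions: Picker's cells and Chooser's cells -/
abbrev Pos (n : ℕ) := Finset (Fin n × Fin n) × Finset (Fin n × Fin n)

def cnt (A : Finset (Fin n × Fin n)) (i : Fin n) : ℕ := (Finset.filter (fun x => x.1 = i) A).card

/-- Picker's lead in row `i`. -/
def X (p : Pos n) (i : Fin n) : ℤ := (cnt p.1 i : ℤ) - (cnt p.2 i : ℤ)

/-- The score of row `i`. -/
noncomputable def S (θ z : ℝ) (p : Pos n) (i : Fin n) : ℝ :=
  θ * ((cnt p.1 i : ℝ) - (cnt p.2 i : ℝ) - z)
    + θ ^ 2 * ((n : ℝ) - (cnt p.1 i : ℝ) - (cnt p.2 i : ℝ)) / 2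

theorem cnt_insert {A : Finset (Fin n × Fin n)} {a : Fin n × Fin n} (ha : a ∉ A) (i : Fin n) :
    cnt (insert a A) i = cnt A i + (if i = a.1 then 1 else 0) := by
  unfold cnt
  rw [Finset.filter_insert]
  by_cases h : a.1 = i
  · rw [if_pos h, if_pos h.symm, Finset.card_insert_of_notMem]
    intro hmem
    exact ha (Finset.mem_filter.mp hmem).1
  · rw [if_neg h, if_neg (fun hh => h hh.symm)]
    simp

theorem cnt_add_le {p : Pos n} (hd : Disjoint p.1 p.2) (i : Fin n) :
    cnt p.1 i + cnt p.2 i ≤ n := by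
  unfold cnt
  rw [← Finset.card_union_of_disjoint (Finset.disjoint_filter_filter hd), ← Finset.filter_union]
  calc (Finset.filter (fun x => x.1 = i) (p.1 ∪ p.2)).card
      ≤ ((Finset.univ : Finset (Fin n)).image (fun j => (i, j))).card := by
        apply Finset.card_le_card
        intro x hx
        rw [Finset.mem_filter] at hx
        rw [Finset.mem_image]
        exact ⟨x.2, Finset.mem_univ _, by rw [← hx.2]⟩
    _ ≤ (Finset.univ : Finset (Fin n)).card := Finset.card_image_le
    _ = n := by simp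

theorem X_insert {p : Pos n} {a b : Fin n × Fin n} (ha : a ∉ p.1 ∪ p.2) (hb : b ∉ p.1 ∪ p.2) :
    X (insert a p.1, insert b p.2) = updX (X p) a.1 b.1 := by
  have ha' : a ∉ p.1 := fun h => ha (Finset.mem_union_left _ h)
  have hb' : b ∉ p.2 := fun h => hb (Finset.mem_union_right _ h)
  funext i
  unfold X updX
  rw [cnt_insert ha', cnt_insert hb']
  push_cast
  ring

theorem S_insert {θ z : ℝ} {p : Pos n} {a b : Fin n × Fin n} (ha : a ∉ p.1 ∪ p.2)
    (hb : b ∉ p.1 ∪ p.2) :
    S θ z (insert a p.1, insert b p.2) = updS θ (S θ z p) a.1 b.1 := by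
  have ha' : a ∉ p.1 := fun h => ha (Finset.mem_union_left _ h)
  have hb' : b ∉ p.2 := fun h => hb (Finset.mem_union_right _ h)
  funext i
  unfold S updS
  rw [cnt_insert ha', cnt_insert hb']
  push_cast
  split_ifs <;> ring

theorem one_le_S {θ z : ℝ} (h0 : 0 ≤ θ) {y : ℤ} (hy : 1 ≤ θ * ((y : ℝ) - z)) {p : Pos n}
    (hd : Disjoint p.1 p.2) (i : Fin n) (hi : y ≤ X p i) : 1 ≤ S θ z p i := by
  have h1 : ((cnt p.1 i : ℝ) + (cnt p.2 i : ℝ)) ≤ n := by exact_mod_cast cnt_add_le hd i
  have h2 : (y : ℝ) ≤ (cnt p.1 i : ℝ) - (cnt p.2 i : ℝ) := by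
    have : y ≤ (cnt p.1 i : ℤ) - (cnt p.2 i : ℤ) := hi
    exact_mod_cast this
  unfold S
  have h3 : θ * ((y : ℝ) - z) ≤ θ * ((cnt p.1 i : ℝ) - (cnt p.2 i : ℝ) - z) :=
    mul_le_mul_of_nonneg_left (by linarith) h0
  have h4 : 0 ≤ θ ^ 2 * ((n : ℝ) - (cnt p.1 i : ℝ) - (cnt p.2 i : ℝ)) / 2 := by
    have : 0 ≤ (n : ℝ) - (cnt p.1 i : ℝ) - (cnt p.2 i : ℝ) := by linarith
    positivity
  linarith

/-- Picker can force a lead of `k` (in the form used by the frozen statement). -/
def Forces (n : ℕ) (k : ℤ) : Prop :=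
  ∃ W : Set (Finset (Fin n × Fin n) × Finset (Fin n × Fin n)),
    ((∅ : Finset (Fin n × Fin n)), (∅ : Finset (Fin n × Fin n))) ∈ W ∧
    ∀ p ∈ W,
      ((p.1 ∪ p.2).card + 2 > n * n ∧
        ∃ i : Fin n, k ≤ ((Finset.filter (fun x : Fin n × Fin n => x.1 = i) p.1).card : ℤ)
            - ((Finset.filter (fun x : Fin n × Fin n => x.1 = i) p.2).card : ℤ)) ∨
      ∃ a b : Fin n × Fin n, a ≠ b ∧ a ∉ p.1 ∪ p.2 ∧ b ∉ p.1 ∪ p.2 ∧
        (insert a p.1, insert b p.2) ∈ W ∧ (insert b p.1, insert a p.2) ∈ W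

theorem main_bound {θ z : ℝ} (h0 : 0 ≤ θ) (h1 : θ ≤ 1 / 2) {y : ℤ} {K : ℕ}
    (hK1 : 1 ≤ K) (hy0 : 0 ≤ y) (hy : 1 ≤ θ * ((y : ℝ) - z))
    (hinit : n * h (-(θ * z) + θ ^ 2 * n / 2) ≤ K) {k : ℤ} (hk : Forces n k) :
    k ≤ y + 2 * K - 1 := by
  obtain ⟨W, hW0, hW⟩ := hk
  have key : ∀ m : ℕ, ∀ p : Pos n, p ∈ W → n * n - (p.1 ∪ p.2).card ≤ m → Disjoint p.1 p.2 →
      ∑ l, h (S θ z p l) ≤ K → Maj y K (X p) → k ≤ y + 2 * K - 1 := by
    intro m
    induction m with
    | zero =>
      intro p hp hm hd hΦ hM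
      rcases hW p hp with ⟨_, i, hi⟩ | ⟨a, b, hab, ha, hb, h1, h2⟩
      · have := hM {i} (by simpa using hK1)
        simp only [Finset.sum_singleton, Finset.card_singleton] at this
        have hx : k ≤ X p i := hi
        push_cast at this
        linarith
      · exfalso
        have hc : (insert a (p.1 ∪ p.2)).card ≤ Fintype.card (Fin n × Fin n) :=
          Finset.card_le_univ _
        rw [Finset.card_insert_of_notMem ha] at hc
        simp only [Fintype.card_prod, Fintype.card_fin] at hc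
        omega
    | succ m ih =>
      intro p hp hm hd hΦ hM
      rcases hW p hp with ⟨_, i, hi⟩ | ⟨a, b, hab, ha, hb, hW1, hW2⟩
      · have := hM {i} (by simpa using hK1)
        simp only [Finset.sum_singleton, Finset.card_singleton] at this
        have hx : k ≤ X p i := hi
        push_cast at this
        linarith
      · have ha1 : a ∉ p.1 := fun h => ha (Finset.mem_union_left _ h)
        have ha2 : a ∉ p.2 := fun h => ha (Finset.mem_union_right _ h)
        have hb1 : b ∉ p.1 := fun h => hb (Finset.mem_union_left _ h)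
        have hb2 : b ∉ p.2 := fun h => hb (Finset.mem_union_right _ h)
        have hcard : ∀ (c d : Fin n × Fin n), c ∉ p.1 ∪ p.2 →
            n * n - ((insert c p.1) ∪ (insert d p.2)).card ≤ m := by
          intro c d hc
          have h1 : (p.1 ∪ p.2).card + 1 ≤ ((insert c p.1) ∪ (insert d p.2)).card := by
            rw [← Finset.card_insert_of_notMem hc]
            apply Finset.card_le_card
            intro x hx
            simp only [Finset.mem_insert, Finset.mem_union] at hx ⊢
            tauto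
          omega
        rcases turn h0 h1 (fun l => one_le_S h0 hy hd l) hΦ hM a.1 b.1 with ⟨g1, g2⟩ | ⟨g1, g2⟩
        · refine ih _ hW1 (hcard a b ha) ?_ ?_ ?_
          · simp only [Finset.disjoint_insert_left, Finset.disjoint_insert_right,
              Finset.mem_insert, not_or]
            exact ⟨⟨hab.symm, hb1⟩, ha2, hd⟩
          · rw [S_insert ha hb]; exact g1
          · rw [X_insert ha hb]; exact g2
        · refine ih _ hW2 (hcard b a hb) ?_ ?_ ?_
          · simp only [Finset.disjoint_insert_left, Finset.disjoint_insert_right,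
              Finset.mem_insert, not_or]
            exact ⟨⟨hab, ha1⟩, hb2, hd⟩
          · rw [S_insert hb ha]; exact g1
          · rw [X_insert hb ha]; exact g2
  refine key (n * n) _ hW0 (by simp) (by simp) ?_ ?_
  · have : ∀ l ∈ (Finset.univ : Finset (Fin n)), h (S θ z (∅, ∅) l)
        = h (-(θ * z) + θ ^ 2 * n / 2) := by
      intro l _
      unfold S cnt
      congr 1
      simp
    rw [Finset.sum_congr rfl this]
    simpa using hinit
  · intro M hMK
    have hX : ∀ l ∈ M, X ((∅, ∅) : Pos n) l - y = -y := by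
      intro l _
      unfold X cnt
      simp
    rw [Finset.sum_congr rfl hX]
    have h2 : (M.card : ℤ) ≤ K := by exact_mod_cast hMK
    have h3 : (0 : ℤ) ≤ M.card := by positivity
    simp only [Finset.sum_const, nsmul_eq_mul]
    nlinarith

/-- Explicit upper bound for the lead that Picker can force. -/
theorem explicit_bound {n : ℕ} (hn : 9 ≤ n) {k : ℤ} (hk : Forces n k) :
    (k : ℝ) ≤ Real.sqrt (n * Real.log n) + Real.sqrt (n / Real.log n)
      + 2 * Real.exp (-1) * Real.sqrt n + 2 := by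
  have hnR : (9 : ℝ) ≤ n := by exact_mod_cast hn
  have hn0 : (0 : ℝ) < n := by linarith
  have hlog1 : 1 ≤ Real.log n := by
    rw [Real.le_log_iff_exp_le hn0]
    have := Real.exp_one_lt_d9
    linarith
  have hlog0 : 0 < Real.log n := by linarith
  have hlog4 : Real.log n ≤ n / 4 := by
    -- log n = 2 log 3 + log (n / 9) ≤ ...
    have h3 : Real.log 9 ≤ 9 / 4 := by
      have e1 : Real.log 9 = 2 * Real.log 3 := by
        rw [show (9 : ℝ) = 3 ^ 2 by norm_num, Real.log_pow]; norm_num
      have e2 : Real.log 3 ≤ 9 / 8 := by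
        rw [Real.log_le_iff_le_exp (by norm_num)]
        have e3 : (3 : ℝ) ≤ Real.exp 1 * (1 + 1 / 8) := by
          have := Real.exp_one_gt_d9
          linarith
        have e4 : Real.exp (9 / 8) = Real.exp 1 * Real.exp (1 / 8) := by
          rw [← Real.exp_add]; norm_num
        rw [e4]
        have e5 : (1 : ℝ) + 1 / 8 ≤ Real.exp (1 / 8) := by
          have := Real.add_one_le_exp (1 / 8 : ℝ)
          linarith
        exact e3.trans (mul_le_mul_of_nonneg_left e5 (Real.exp_pos _).le)
      rw [e1]; linarith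
    have h4 : Real.log n = Real.log 9 + Real.log (n / 9) := by
      rw [← Real.log_mul (by norm_num) (by positivity)]
      congr 1; field_simp
    have h5 : Real.log (n / 9) ≤ n / 9 - 1 := Real.log_le_sub_one_of_pos (by positivity)
    rw [h4]
    linarith
  set z := Real.sqrt (n * Real.log n) with hz
  have hz2 : z ^ 2 = n * Real.log n := Real.sq_sqrt (by positivity)
  have hz0 : 0 < z := Real.sqrt_pos.mpr (by positivity)
  set θ := z / n with hθ
  have hθ0 : 0 < θ := by positivity
  have hθ1 : θ ≤ 1 / 2 := by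
    rw [hθ, div_le_iff₀ hn0]
    apply le_of_sq_le_sq _ (by positivity)
    rw [hz2]
    nlinarith
  have hθz : θ * z = Real.log n := by
    rw [hθ, div_mul_eq_mul_div, ← sq, hz2]
    field_simp
  have hθn : θ ^ 2 * n / 2 = Real.log n / 2 := by
    rw [hθ, div_pow, hz2]
    field_simp
  have hinv : 1 / θ = Real.sqrt (n / Real.log n) := by
    rw [hθ, hz, one_div_div, Real.sqrt_div hn0.le, Real.sqrt_mul hn0.le]
    have h1 : Real.sqrt n ≠ 0 := (Real.sqrt_pos.mpr hn0).ne'
    have h2 : Real.sqrt (Real.log n) ≠ 0 := (Real.sqrt_pos.mpr hlog0).ne'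
    have h3 : Real.sqrt n * Real.sqrt n = n := Real.mul_self_sqrt hn0.le
    rw [div_eq_div_iff (by positivity) h2, ← mul_assoc, h3]
  set K : ℕ := ⌈Real.exp (-1) * Real.sqrt n⌉₊ with hKdef
  have hK1 : 1 ≤ K := by
    have h1 : 0 < Real.exp (-1) * Real.sqrt n := by positivity
    exact Nat.one_le_iff_ne_zero.mpr (Nat.ceil_pos.mpr h1).ne'
  have hKu : (K : ℝ) ≤ Real.exp (-1) * Real.sqrt n + 1 :=
    (Nat.ceil_lt_add_one (by positivity)).le
  have hKl : Real.exp (-1) * Real.sqrt n ≤ K := Nat.le_ceil _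
  set y : ℤ := ⌈z + 1 / θ⌉ with hydef
  have hyl : z + 1 / θ ≤ y := Int.le_ceil _
  have hyu : (y : ℝ) ≤ z + 1 / θ + 1 := (Int.ceil_lt_add_one _).le
  have hy0 : 0 ≤ y := Int.ceil_nonneg (by positivity)
  have hy : 1 ≤ θ * ((y : ℝ) - z) := by
    have h1 : θ * (1 / θ) = 1 := by field_simp
    have h2 : θ * (1 / θ) ≤ θ * ((y : ℝ) - z) :=
      mul_le_mul_of_nonneg_left (by linarith) hθ0.le
    linarith
  have hinit : n * h (-(θ * z) + θ ^ 2 * n / 2) ≤ K := by
    rw [hθz, hθn, h_le (by linarith)]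
    refine le_trans (le_of_eq ?_) hKl
    have e1 : Real.exp (Real.log n / 2) = Real.sqrt n := by
      rw [Real.exp_half, Real.exp_log hn0]
    have e2 : -Real.log n + Real.log n / 2 - 1 = -1 + -(Real.log n / 2) := by ring
    rw [e2, Real.exp_add, Real.exp_neg (Real.log n / 2), e1]
    have h3 : Real.sqrt n * Real.sqrt n = n := Real.mul_self_sqrt hn0.le
    have h1 : Real.sqrt n ≠ 0 := (Real.sqrt_pos.mpr hn0).ne'
    field_simp
    nlinarith
  have := main_bound hθ0.le hθ1 hK1 hy0 hy hinit hk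
  have h2 : (k : ℝ) ≤ y + 2 * K - 1 := by exact_mod_cast this
  rw [← hinv]
  linarith

/-- For large `n`, Picker cannot force a lead of `(9/10) √(2 n log n)`. -/
theorem eventually_lt : ∀ᶠ n : ℕ in Filter.atTop, ∀ k : ℤ, Forces n k →
    (k : ℝ) < (1 - 1 / 10) * Real.sqrt (2 * (n : ℝ) * Real.log n) := by
  have h1 : ∀ᶠ n : ℕ in Filter.atTop, (400 : ℝ) ≤ Real.log n :=
    (Real.tendsto_log_atTop.comp tendsto_natCast_atTop_atTop).eventually_ge_atTop 400
  filter_upwards [h1, Filter.eventually_ge_atTop 9] with n hlog hn k hk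
  have hb := explicit_bound hn hk
  have hnR : (9 : ℝ) ≤ n := by exact_mod_cast hn
  have hn0 : (0 : ℝ) < n := by linarith
  have hs3 : 3 ≤ Real.sqrt n := by
    rw [Real.le_sqrt (by norm_num) hn0.le]; linarith
  have hz : Real.sqrt (n * Real.log n) = Real.sqrt n * Real.sqrt (Real.log n) :=
    Real.sqrt_mul hn0.le _
  have hl20 : 20 ≤ Real.sqrt (Real.log n) := by
    rw [Real.le_sqrt (by norm_num) (by linarith)]; linarith
  have h2 : Real.sqrt (2 * (n : ℝ) * Real.log n)
      = Real.sqrt 2 * (Real.sqrt n * Real.sqrt (Real.log n)) := by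
    rw [mul_assoc, Real.sqrt_mul (by norm_num), hz]
  have hsq2 : (1.41 : ℝ) ≤ Real.sqrt 2 := by
    rw [Real.le_sqrt (by norm_num) (by norm_num)]; norm_num
  have h3 : Real.sqrt (n / Real.log n) ≤ Real.sqrt n := by
    apply Real.sqrt_le_sqrt
    rw [div_le_iff₀ (by linarith)]
    nlinarith
  have h4 : Real.exp (-1) ≤ 1 := by
    rw [Real.exp_le_one_iff]; norm_num
  have h5 : 2 * Real.exp (-1) * Real.sqrt n ≤ 2 * Real.sqrt n := by nlinarith
  rw [h2]
  rw [hz] at hb
  set a := Real.sqrt n
  set b := Real.sqrt (Real.log n)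
  have hab : 20 * a ≤ a * b := by nlinarith
  have h6 : (1.41 : ℝ) * (a * b) ≤ Real.sqrt 2 * (a * b) :=
    mul_le_mul_of_nonneg_right hsq2 (by positivity)
  nlinarith

end Board

end Pool.Agent.Helper17.PC
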